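import Pool.Agent.Helper69.QG.St1

/-!
# Project QD, part C, geometric half, module LFZ: discreteness on the hyperboloid

For `x, y` in the hyperboloid and a unit spacelike `e` the Gram determinant of `x, y, e` is `≤ 0`; so
`0 < lf y e` and `(lf x y)² < 1 + (lf y e)²` imply `0 < lf x e`.
-/

set_option autoImplicit false

open Complex Set Metric
open scoped ComplexConjugate

namespace Pool.Agent.Helper51.QG

open Pool.Agent.Helper69.QG

/-- the Gram determinant of three vectors -/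
private theorem gram_det (x y e : V3) :
    lf x x * (lf y y * lf e e - lf y e ^ 2) - lf x y * (lf x y * lf e e - lf y e * lf x e)
      + lf x e * (lf x y * lf y e - lf y y * lf x e) =
    -(x 0 * (y 1 * e 2 - y 2 * e 1) - x 1 * (y 0 * e 2 - y 2 * e 0) + x 2 * (y 0 * e 1 - y 1 * e 0)) ^ 2 := by
  unfold lf
  ring

private theorem side {x y e : V3} (hx : lf x x = -1) (hy : lf y y = -1) (he : lf e e = 1) (ht : 0 < -lf x y)
    (hp : 0 < lf y e) (h : (lf x y) ^ 2 < 1 + lf y e ^ 2) : 0 < lf x e := by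
  have hg := gram_det x y e
  rw [hx, hy, he] at hg
  have h1 : 0 < (-lf x y) * lf y e * lf x e := by
    nlinarith [sq_nonneg (lf x e), sq_nonneg (x 0 * (y 1 * e 2 - y 2 * e 1) - x 1 * (y 0 * e 2 - y 2 * e 0) +
      x 2 * (y 0 * e 1 - y 1 * e 0))]
  by_contra hn
  push Not at hn
  have h2 : 0 < (-lf x y) * lf y e := mul_pos ht hp
  nlinarith

private theorem neg_lf_pos {x y : V3} (hx : lf x x = -1) (hy : lf y y = -1) (hx0 : 0 < x 0) (hy0 : 0 < y 0) :
    0 < -lf x y := by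
  by_contra hn
  push Not at hn
  unfold lf at hx hy hn
  have h0 : 0 < x 0 * y 0 := mul_pos hx0 hy0
  have h1 : x 0 * y 0 ≤ x 1 * y 1 + x 2 * y 2 := by linarith
  have h2 : (x 0 * y 0) ^ 2 ≤ (x 1 * y 1 + x 2 * y 2) ^ 2 := pow_le_pow_left₀ h0.le h1 2
  have h3 : x 0 ^ 2 = 1 + x 1 ^ 2 + x 2 ^ 2 := by nlinarith
  have h4 : y 0 ^ 2 = 1 + y 1 ^ 2 + y 2 ^ 2 := by nlinarith
  have h5 : (x 0 * y 0) ^ 2 = (1 + x 1 ^ 2 + x 2 ^ 2) * (1 + y 1 ^ 2 + y 2 ^ 2) := by
    rw [mul_pow, h3, h4]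
  nlinarith [sq_nonneg (x 1 * y 2 - x 2 * y 1), sq_nonneg (x 1), sq_nonneg (x 2), sq_nonneg (y 1), sq_nonneg (y 2)]

/-- the action preserves the form -/
private theorem inv_act (w : W) : ∀ z z' : DD, lf (Xm (act w z : DD)) (Xm (act w z' : DD)) = lf (Xm z) (Xm z') := by
  induction w using cs.simple_induction with
  | simple s =>
    intro z z'
    have h : act (cs.simple s) = Rp s := act_gen s
    rw [h, Xm_Rp, Xm_Rp, lf_rf_rf]
  | one =>
    intro z z'
    rw [map_one]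
    rfl
  | mul w w' h1 h2 =>
    intro z z'
    rw [map_mul, Equiv.Perm.mul_apply, Equiv.Perm.mul_apply, h1, h2]

/-- Module LFZ. -/
theorem cLFZ (stz : St_STZ) : St_LFZ := by
  intro y hy K
  -- the gap
  obtain ⟨s₀, hs₀⟩ : ∃ s₀ : Fin 4, ∀ s, lf (Xm y) (ev s₀) ≤ lf (Xm y) (ev s) := Finite.exists_min _
  set m := lf (Xm y) (ev s₀) with hm
  have hm0 : 0 < m := hy s₀
  have hyy := (Xm_hyp y.2).1
  have hgap : ∀ w : W, w ≠ 1 → 1 + m ^ 2 ≤ (lf (Xm (act w y : DD)) (Xm y)) ^ 2 := by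
    intro w hw
    by_contra hn
    push Not at hn
    apply hw
    refine stz.2 w y hy ?_
    intro s
    refine (side (Xm_hyp (act w y).2).1 hyy (lf_ev_self s)
      (neg_lf_pos (Xm_hyp (act w y).2).1 hyy (Xm_hyp (act w y).2).2 (Xm_hyp y.2).2) (hy s) ?_).le
    have h1 := hs₀ s
    have h2 : m ^ 2 ≤ lf (Xm y) (ev s) ^ 2 := pow_le_pow_left₀ hm0.le h1 2
    linarith
  have hgap2 : ∀ w w' : W, w ≠ w' → 1 + m ^ 2 ≤ (lf (Xm (act w y : DD)) (Xm (act w' y : DD))) ^ 2 := by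
    intro w w' hww
    have h1 := hgap (w'⁻¹ * w) (fun h => hww (by
      rw [inv_mul_eq_one] at h
      exact h.symm))
    have h2 := inv_act w' (act (w'⁻¹ * w) y) y
    rw [← Equiv.Perm.mul_apply, ← map_mul, mul_inv_cancel_left] at h2
    rw [h2]
    exact h1
  -- separation in the plane
  obtain ⟨δ, hδ, hδ2⟩ : ∃ δ : ℝ, 0 < δ ∧ (1 + δ ^ 2) ^ 2 < 1 + m ^ 2 := by
    refine ⟨min 1 (m / 2), by positivity, ?_⟩
    have h1 : min 1 (m / 2) ≤ 1 := min_le_left _ _
    have h2 : min 1 (m / 2) ≤ m / 2 := min_le_right _ _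
    have h0 : 0 < min 1 (m / 2) := by positivity
    set d := min 1 (m / 2)
    have h3 : d ^ 2 ≤ 1 := by nlinarith
    have h4 : d ^ 2 ≤ (m / 2) ^ 2 := pow_le_pow_left₀ h0.le h2 2
    nlinarith [sq_nonneg (d ^ 2), sq_nonneg d]
  have hsep : ∀ w w' : W, |Xm (act w y : DD) 1 - Xm (act w' y : DD) 1| < δ →
      |Xm (act w y : DD) 2 - Xm (act w' y : DD) 2| < δ → w = w' := by
    intro w w' h1 h2
    by_contra hne
    have h3 := hgap2 w w' hne
    set x := Xm (act w y : DD)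
    set x' := Xm (act w' y : DD)
    have hx := Xm_hyp (act w y).2
    have hx' := Xm_hyp (act w' y).2
    have ht : 0 < -lf x x' := neg_lf_pos hx.1 hx'.1 hx.2 hx'.2
    have h4 : -lf x x' - 1 = (-(x 0 - x' 0) ^ 2 + (x 1 - x' 1) ^ 2 + (x 2 - x' 2) ^ 2) / 2 := by
      have e1 : lf x x = -1 := hx.1
      have e2 : lf x' x' = -1 := hx'.1
      unfold lf at e1 e2 ⊢
      linarith
    have h5 : (x 1 - x' 1) ^ 2 < δ ^ 2 := sq_lt_sq' (by linarith [(abs_lt.1 h1).1]) (abs_lt.1 h1).2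
    have h6 : (x 2 - x' 2) ^ 2 < δ ^ 2 := sq_lt_sq' (by linarith [(abs_lt.1 h2).1]) (abs_lt.1 h2).2
    have h7 : -lf x x' < 1 + δ ^ 2 := by nlinarith [sq_nonneg (x 0 - x' 0)]
    have h8 : (-lf x x') ^ 2 < (1 + δ ^ 2) ^ 2 := pow_lt_pow_left₀ h7 ht.le (by norm_num)
    have h9 : (lf x x') ^ 2 = (-lf x x') ^ 2 := by ring
    linarith
  -- finiteness
  set g : W → ℝ × ℝ := fun w => (Xm (act w y : DD) 1, Xm (act w y : DD) 2) with hg
  have hcpt : IsCompact (closedBall (0 : ℝ × ℝ) (max K 0)) := isCompact_closedBall _ _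
  obtain ⟨t, -, ht, hcov⟩ := hcpt.finite_cover_balls (half_pos hδ)
  have hmem : ∀ w ∈ {w : W | Xm (act w y : DD) 0 ≤ K}, ∃ c ∈ t, g w ∈ ball c (δ / 2) := by
    intro w hw
    have hw' : Xm (act w y : DD) 0 ≤ K := hw
    have hx := Xm_hyp (act w y).2
    have h1 : (Xm (act w y : DD) 0) ^ 2 = 1 + (Xm (act w y : DD) 1) ^ 2 + (Xm (act w y : DD) 2) ^ 2 := by
      have := hx.1
      unfold lf at this
      nlinarith
    have h2 : g w ∈ closedBall (0 : ℝ × ℝ) (max K 0) := by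
      rw [mem_closedBall_zero_iff, Prod.norm_def]
      refine le_trans ?_ (le_max_left K 0)
      refine max_le ?_ ?_
      · rw [Real.norm_eq_abs]
        exact (abs_le_of_sq_le_sq (by simp only [hg]; nlinarith [sq_nonneg (Xm (act w y : DD) 2)]) hx.2.le).trans hw'
      · rw [Real.norm_eq_abs]
        exact (abs_le_of_sq_le_sq (by simp only [hg]; nlinarith [sq_nonneg (Xm (act w y : DD) 1)]) hx.2.le).trans hw'
    have h3 := hcov h2
    simp only [mem_iUnion] at h3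
    obtain ⟨c, hc, hcb⟩ := h3
    exact ⟨c, hc, hcb⟩
  classical
  choose! φ hφ using hmem
  refine Set.Finite.of_injOn (f := φ) (t := t) (fun w hw => (hφ w hw).1) ?_ ht
  intro w hw w' hw' he
  have h1 := (hφ w hw).2
  have h2 := (hφ w' hw').2
  rw [← he] at h2
  have h3 : dist (g w) (g w') < δ := by
    have := dist_triangle_right (g w) (g w') (φ w)
    have a1 := mem_ball.1 h1
    have a2 := mem_ball.1 h2
    linarith
  rw [Prod.dist_eq] at h3
  have h4 := lt_of_le_of_lt (le_max_left _ _) h3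
  have h5 := lt_of_le_of_lt (le_max_right _ _) h3
  rw [Real.dist_eq] at h4 h5
  exact hsep w w' h4 h5

end Pool.Agent.Helper51.QG
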